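import Pool.Agent.Q283.LQ.Def
import Pool.Agent.W289.SL.Defs

/-!
# The `Σ`-Leopoldt conjecture for quadratic characters, `p = 2` (helper7, helper1): statements of the parts

`K` is a number field, `(2) = I * I'` with coprime ideals `I`, `I'` of `𝓞 K`.
-/

set_option autoImplicit false

namespace Pool.Agent.Q7.SG

open NumberField IsDedekindDomain Filter Topology Finset
open Pool.Agent.Q283.LQ Pool.Agent.W289.SL

/-- the place of the embedding `σ` of `K` divides `I` -/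
def Over {K : Type} [Field K] (I : Ideal (𝓞 K)) (σ : K →+* ℂ_[2]) : Prop :=
  ∀ x ∈ I, ‖σ (x : K)‖ < 1

/-- JOB A. From `ℂ_2`-relations between the logarithms at the embeddings above `I` to `2`-adic relations `Rel`.
Proof.  Let `n > 0` with `θ_i ^ n ≡ 1` modulo `2 ^ 4` (`exists_pow_U4` of `Y419/LC/LCP.lean`), `ω` the integral basis of
`𝓞 H`; `exists_c` (there): `L (σ (θ_i ^ n)) = ∑_j c_ij σ(ω_j)` for all `σ`, `c_ij ∈ ℚ_2`.  Choose `α_N ∈ 𝓞 K`,
`α_N ≡ 1` modulo `I ^ N`, `≡ 0` modulo `I' ^ N`; `α_N ω_j = ∑_k m_jk ω_k` with integers `m_jk`; by the compactness of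
`(ℤ_2)^(J × J)` a subsequence of the matrices converges to `m ∈ (ℤ_2)^(J × J)`, and
`∑_k m_jk σ(ω_k) = σ(ω_j)` if `σ` is over `I` and `= 0` otherwise (`σ (α_N) → 1`, `→ 0`: an embedding which is not over
`I` is over `I'`, and then `‖σ x‖ ≤ C r ^ N` for `x ∈ I' ^ N`).  Put `c' = c m`: `∑_k c'_ik σ(ω_k)` is `L (σ (θ_i ^ n))` over
`I` and `0` otherwise.  By `exists_inv` (the matrix `σ(ω_k)` is invertible) the conditions on `a` are equivalent to
`∑_i a_i c'_ik = 0` for all `k`: linear equations over `ℚ_2`, so the dimension of the space of the solutions in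
`(ℚ_2)^q` is at least `t` (rank of a matrix over a field extension); clear denominators.  For such a `b ∈ (ℤ_2)^q` and
integral `m_k → b`, `u_k = ∏ (θ_i ^ n) ^ (m_k i)`: `L (σ (u_k)) → 0` for `σ` over `I`, and `u_k ≡ 1` modulo `2 ^ 4`, so
`σ (u_k) → 1` (`dist_le` of LCP).  Choose `γ ∈ 𝓞 K`, `γ ≡ 1` modulo `I ^ N`, `≡ 0` modulo `I' ^ M`, `M` large:
`σ (γ (u_k - 1))` is small for all `σ`, so `γ (u_k - 1)` is divisible by `2 ^ N` (inverse of the matrix `σ(ω_k)`), and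
`(1 - γ) (u_k - 1) ∈ I ^ N`; so `u_k - 1 ∈ (I 𝓞 H) ^ N`.  The relation for the `θ_i` is `n b`. -/
def S_A : Prop := ∀ (K H : Type) [Field K] [NumberField K] [Field H] [NumberField H] [Algebra K H]
  (I I' : Ideal (𝓞 K)), I * I' = Ideal.span {2} → IsCoprime I I' →
  ∀ L : ℂ_[2] → ℂ_[2], IsIwasawaLog 2 L → ∀ (q : ℕ) (θ : Fin q → (𝓞 H)ˣ), (∀ c : Fin q → ℤ, ∏ i, θ i ^ c i = 1 → c = 0) →
  ∀ (t : ℕ) (a : Fin t → Fin q → ℂ_[2]), LinearIndependent ℂ_[2] a →
  (∀ (j : Fin t) (σ : H →+* ℂ_[2]), Over I (σ.comp (algebraMap K H)) →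
    ∑ i, a j i * L (σ ((θ i : 𝓞 H) : H)) = 0) →
  ∃ b : Fin t → Fin q → ℤ_[2], LinearIndependent ℤ_[2] b ∧
    ∀ j, Rel H (I.map (algebraMap (𝓞 K) (𝓞 H))) θ (b j)

end Pool.Agent.Q7.SG
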