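import Pool.Agent.Q7.SG.Cr
import Pool.Agent.W289.SL.Defs

/-!
# Part A of the theorem on the `Σ`-Leopoldt conjecture for quadratic characters, `p = 2`, statement (helper1)
-/

set_option autoImplicit false

namespace Pool.Agent.Q7.SG

open NumberField IsDedekindDomain Filter Topology Finset
open Pool.Agent.Q283.LQ Pool.Agent.W289.SL

/-- From the kernel of the logarithms at the embeddings in `S` to relations `Rel` between units of relative norm `1` -/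
def S_SgA : Prop := ∀ (K H : Type) [Field K] [NumberField K] [Field H] [NumberField H] [Algebra K H],
  Module.finrank K H = 2 → ∀ I : Ideal (𝓞 K), (2 : 𝓞 K) ∈ I → ∀ S : Set (K →+* ℂ_[2]),
  (∀ s : K →+* ℂ_[2], s ∈ S ↔ ∀ a ∈ I, ‖s (a : K)‖ < 1) →
  ∀ (L : ℂ_[2] → ℂ_[2]) (hL : IsIwasawaLog 2 L) (χ : (H ≃ₐ[K] H) →* ℂ_[2]ˣ), χ ≠ 1 →
  ∀ (t : ℕ) (x : Fin t → UM 2 H), LinearIndependent ℂ_[2] x →
  (∀ (i : Fin t) (τ : H ≃ₐ[K] H), actLin 2 (τ : H →+* H) (x i) = ((χ τ : ℂ_[2]ˣ) : ℂ_[2]) • x i) →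
  (∀ (i : Fin t) (s : H →+* ℂ_[2]), s.comp (algebraMap K H) ∈ S → logLin hL s (x i) = 0) →
  Out K H I t

end Pool.Agent.Q7.SG
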