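import Pool.Agent.Q283.LQ.All

/-!
# From relations between units of relative norm one to classes

`cr1x`, `cr2x` are `Pool.Agent.Q198.LQ.cr1` (helper198) and `Pool.Agent.Q129.LQ.cr2` (helper129) of the project LQ of
helper283 with other hypotheses: relations between the units of relative norm `1` are given instead of a Leopoldt
defect.  The proofs are theirs.
-/

set_option autoImplicit false

namespace Pool.Agent.Q7.SG

open NumberField IsDedekindDomain Filter Topology Finset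
open Pool.Agent.Q283.LQ Pool.Agent.Q198.LQ Pool.Agent.Q129.LQ Pool.Agent.Q151.LQ

/-- `t` independent relations between the units of relative norm `1` -/
def Out (F L : Type) [Field F] [NumberField F] [Field L] [NumberField L] [Algebra F L] (I : Ideal (𝓞 F))
    (t : ℕ) : Prop :=
  ∃ (p : ℕ) (θ : Fin p → (𝓞 L)ˣ) (h : ℕ), 0 < h ∧
    (∀ i, Algebra.norm F (((θ i : (𝓞 L)ˣ) : 𝓞 L) : L) = 1) ∧
    (∀ c : Fin p → ℤ, ∏ i, θ i ^ c i = 1 → c = 0) ∧
    (∀ η : (𝓞 L)ˣ, Algebra.norm F ((η : 𝓞 L) : L) = 1 → ∃ c : Fin p → ℤ, η ^ h = (∏ i, θ i ^ c i) ^ h) ∧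
    ∃ a : Fin t → Fin p → ℤ_[2], LinearIndependent ℤ_[2] a ∧
      ∀ j, Rel L (I.map (algebraMap (𝓞 F) (𝓞 L))) θ (a j)

/-- the units of relative norm `1` -/
def Outw (F L : Type) [Field F] [NumberField F] [Field L] [NumberField L] [Algebra F L] (I : Ideal (𝓞 F))
    (t : ℕ) : Prop :=
  ∃ w : Fin t → (𝓞 L)ˣ, (∀ j, Algebra.norm F (((w j : (𝓞 L)ˣ) : 𝓞 L) : L) = 1) ∧
    (∀ c : Fin t → ZMod 2, c ≠ 0 → ∀ η : (𝓞 L)ˣ, Algebra.norm F ((η : 𝓞 L) : L) = 1 →
      ∏ j, w j ^ (c j).val ≠ η ^ 2 ∧ ∏ j, w j ^ (c j).val ≠ - η ^ 2) ∧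
    ∃ M : ℕ, 0 < M ∧ ∀ (c : Fin t → ZMod 2) (N : ℕ), ∃ η : (𝓞 L)ˣ,
      Algebra.norm F ((η : 𝓞 L) : L) = 1 ∧
      ((((∏ j, w j ^ (c j).val) * η ^ 2) ^ M : (𝓞 L)ˣ) : 𝓞 L) - 1 ∈ I.map (algebraMap (𝓞 F) (𝓞 L)) ^ N

theorem cr1x (F L : Type) [Field F] [NumberField F] [Field L] [NumberField L] [Algebra F L] (I : Ideal (𝓞 F))
    (t : ℕ) (hO : Out F L I t) : Outw F L I t := by
  obtain ⟨p, θ, h, hh, hθN, hθind, hgen, a, ha, hRel⟩ := hO
  obtain ⟨b, m, hb1, hb2⟩ := Pool.Agent.Q53.LQ2.LA1.main t p a ha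
  set J := I.map (algebraMap (𝓞 F) (𝓞 L)) with hJ
  -- the norm one subgroup
  let ν : (𝓞 L)ˣ →* Fˣ :=
    Units.map ((Algebra.norm F : L →* F).comp (algebraMap (𝓞 L) L : 𝓞 L →* L))
  have hν : ∀ u : (𝓞 L)ˣ, Algebra.norm F ((u : 𝓞 L) : L) = 1 ↔ u ∈ ν.ker := by
    intro u
    rw [MonoidHom.mem_ker, Units.ext_iff]
    rfl
  choose W hW using fun (j : Fin t) (i : Fin p) => exists_rep (b j i)
  have hprodmem : ∀ n : Fin p → ℤ, ∏ i, θ i ^ n i ∈ ν.ker := fun n =>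
    Subgroup.prod_mem _ fun i _ => Subgroup.zpow_mem _ ((hν _).1 (hθN i)) _
  have hwc : ∀ c : Fin t → ZMod 2, ∏ j, (∏ i, θ i ^ W j i) ^ (c j).val =
      ∏ i, θ i ^ (∑ j, ((c j).val : ℤ) * W j i) := by
    intro c
    calc ∏ j, (∏ i, θ i ^ W j i) ^ (c j).val = ∏ j, ∏ i, θ i ^ (((c j).val : ℤ) * W j i) := by
          refine Finset.prod_congr rfl fun j _ => ?_
          rw [← Finset.prod_pow]
          refine Finset.prod_congr rfl fun i _ => ?_
          rw [← zpow_natCast, ← zpow_mul, mul_comm]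
      _ = ∏ i, ∏ j, θ i ^ (((c j).val : ℤ) * W j i) := Finset.prod_comm
      _ = _ := by
          refine Finset.prod_congr rfl fun i _ => ?_
          rw [prod_zpow_sum]
  have hdiff : ∀ (c : Fin t → ZMod 2) (i : Fin p), (2 : ℤ_[2]) ∣ (∑ j, ((c j).val : ℤ_[2]) * b j i) -
      ((∑ j, ((c j).val : ℤ) * W j i : ℤ) : ℤ_[2]) := by
    intro c i
    push_cast
    rw [← Finset.sum_sub_distrib]
    refine Finset.dvd_sum fun j _ => ?_
    rw [← mul_sub]
    exact (hW j i).mul_left _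
  refine ⟨fun j => ∏ i, θ i ^ W j i, fun j => (hν _).2 (hprodmem _), ?_, ?_⟩
  · -- independence
    intro c hc η hη
    have main : ∀ z : (𝓞 L)ˣ, z ^ 2 = (η ^ 2) ^ 2 → ∏ j, (∏ i, θ i ^ W j i) ^ (c j).val ≠ z := by
      intro z hz hE
      obtain ⟨n, hn⟩ := hgen η hη
      have h1 : (∏ i, θ i ^ (∑ j, ((c j).val : ℤ) * W j i)) ^ (2 * h) = (∏ i, θ i ^ n i) ^ (4 * h) := by
        rw [← hwc c, hE]
        calc z ^ (2 * h) = (z ^ 2) ^ h := by rw [pow_mul]
          _ = ((η ^ 2) ^ 2) ^ h := by rw [hz]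
          _ = (η ^ h) ^ 4 := by
            rw [← pow_mul, ← pow_mul, ← pow_mul]
            congr 1
            ring
          _ = ((∏ i, θ i ^ n i) ^ h) ^ 4 := by rw [hn]
          _ = _ := by
            rw [← pow_mul]
            congr 1
            ring
      have h2 : ∏ i, θ i ^ ((∑ j, ((c j).val : ℤ) * W j i) * (2 * h) - n i * (4 * h)) = 1 := by
        have e1 : (∏ i, θ i ^ (∑ j, ((c j).val : ℤ) * W j i)) ^ (2 * h) =
            ∏ i, θ i ^ ((∑ j, ((c j).val : ℤ) * W j i) * (2 * h)) := by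
          rw [← Finset.prod_pow]
          refine Finset.prod_congr rfl fun i _ => ?_
          rw [← zpow_natCast, ← zpow_mul]
          push_cast
          rfl
        have e2 : (∏ i, θ i ^ n i) ^ (4 * h) = ∏ i, θ i ^ (n i * (4 * h)) := by
          rw [← Finset.prod_pow]
          refine Finset.prod_congr rfl fun i _ => ?_
          rw [← zpow_natCast, ← zpow_mul]
          push_cast
          rfl
        have e3 : ∏ i, θ i ^ ((∑ j, ((c j).val : ℤ) * W j i) * (2 * h) - n i * (4 * h)) =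
            (∏ i, θ i ^ ((∑ j, ((c j).val : ℤ) * W j i) * (2 * h))) / ∏ i, θ i ^ (n i * (4 * h)) := by
          rw [← Finset.prod_div_distrib]
          refine Finset.prod_congr rfl fun i _ => ?_
          rw [zpow_sub, div_eq_mul_inv]
        rw [e3, ← e1, ← e2, h1, div_self']
      have h3 := hθind _ h2
      obtain ⟨i, hi⟩ := hb2 c hc
      apply hi
      have h4 := congrFun h3 i
      have h5 : (∑ j, ((c j).val : ℤ) * W j i) = 2 * n i := by
        have h6 : (2 * (h : ℤ)) * ((∑ j, ((c j).val : ℤ) * W j i) - 2 * n i) = 0 := by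
          simp only [Pi.zero_apply] at h4
          linear_combination h4
        have h7 : (2 * (h : ℤ)) ≠ 0 := by
          have : (h : ℤ) ≠ 0 := by exact_mod_cast hh.ne'
          positivity
        have h8 := (mul_eq_zero.1 h6).resolve_left h7
        linear_combination h8
      have h9 := hdiff c i
      rw [h5] at h9
      have h10 : (2 : ℤ_[2]) ∣ ((2 * n i : ℤ) : ℤ_[2]) := by
        push_cast
        exact dvd_mul_right _ _
      have h11 := dvd_add h9 h10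
      simpa using h11
    exact ⟨main _ rfl, main _ (by rw [neg_sq])⟩
  · -- almost torsion
    refine ⟨2 ^ m, by positivity, fun c N => ?_⟩
    set bc : Fin p → ℤ_[2] := fun i => ∑ j, ((c j).val : ℤ_[2]) * b j i with hbc
    have hrel : (2 : ℤ_[2]) ^ m • bc ∈ RelM J θ := by
      have e : (2 : ℤ_[2]) ^ m • bc = ∑ j, ((c j).val : ℤ_[2]) • ((2 : ℤ_[2]) ^ m • b j) := by
        funext i
        rw [Finset.sum_apply]
        simp only [Pi.smul_apply, smul_eq_mul, hbc]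
        rw [Finset.mul_sum]
        exact Finset.sum_congr rfl fun j _ => by ring
      rw [e]
      refine Submodule.sum_mem _ fun j _ => Submodule.smul_mem _ _ ?_
      have hspan : Submodule.span ℤ_[2] (Set.range a) ≤ RelM J θ := by
        rw [Submodule.span_le]
        rintro _ ⟨j', rfl⟩
        exact hRel j'
      exact hspan (hb1 j)
    obtain ⟨n, hn1, hn2⟩ := hrel
    have hev : ∀ᶠ k in atTop, ∀ i, ‖((n k i : ℤ) : ℤ_[2]) - ((2 : ℤ_[2]) ^ m • bc) i‖ < (2 : ℝ) ^ (-(m : ℤ)) := by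
      rw [Filter.eventually_all]
      intro i
      have := (Metric.tendsto_nhds.1 (hn1 i)) ((2 : ℝ) ^ (-(m : ℤ))) (by positivity)
      filter_upwards [this] with k hk
      rwa [dist_eq_norm] at hk
    obtain ⟨k, hk1, hk2⟩ := (hev.and (hn2 N)).exists
    have hex : ∀ i, ∃ n' : ℤ, n k i = 2 ^ m * ((∑ j, ((c j).val : ℤ) * W j i) + 2 * n') := by
      intro i
      obtain ⟨y, hy⟩ := near_dvd (hk1 i)
      obtain ⟨z, hz⟩ := hdiff c i
      have hbi : ((2 : ℤ_[2]) ^ m • bc) i = 2 ^ m * ∑ j, ((c j).val : ℤ_[2]) * b j i := by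
        simp [hbc]
      rw [hbi] at hy
      have h1 : ((n k i - 2 ^ m * (∑ j, ((c j).val : ℤ) * W j i) : ℤ) : ℤ_[2]) = 2 ^ (m + 1) * (y + z) := by
        push_cast
        push_cast at hz
        have h2 : (∑ j, ((c j).val : ℤ_[2]) * b j i) = 2 * z + ∑ j, ((c j).val : ℤ_[2]) * (W j i : ℤ_[2]) := by
          linear_combination hz
        rw [h2] at hy
        linear_combination hy
      obtain ⟨n', hn'⟩ := dvd_int (m := m + 1) ⟨_, h1⟩
      refine ⟨n', ?_⟩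
      have : n k i = 2 ^ m * (∑ j, ((c j).val : ℤ) * W j i) + 2 ^ (m + 1) * n' := by
        linear_combination hn'
      rw [this]
      ring
    choose n' hn' using hex
    refine ⟨∏ i, θ i ^ n' i, (hν _).2 (hprodmem _), ?_⟩
    have e : ((∏ j, (∏ i, θ i ^ W j i) ^ (c j).val) * (∏ i, θ i ^ n' i) ^ 2) ^ 2 ^ m = ∏ i, θ i ^ n k i := by
      rw [hwc c, ← Finset.prod_pow, ← Finset.prod_mul_distrib, ← Finset.prod_pow]
      refine Finset.prod_congr rfl fun i _ => ?_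
      rw [hn' i, ← zpow_natCast (θ i ^ n' i) 2, ← zpow_mul, ← zpow_add, ← zpow_natCast, ← zpow_mul]
      congr 1
      push_cast
      ring
    rw [e]
    exact hk2

theorem cr2x (F L : Type) [Field F] [NumberField F] [Field L] [NumberField L] [Algebra F L] (d : F)
    (hQ : Quad F L d) (hd : ¬ IsSquare d) (I : Ideal (𝓞 F)) (hI : (2 : 𝓞 F) ∈ I) (t : ℕ) (hO : Out F L I t) :
    Many (AI I) (-d) (2 ^ t - 1) := by
  classical
  obtain ⟨ρ, hρ⟩ := hQ.root
  have hfr := hQ.deg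
  obtain ⟨w, hwn, hwsq, M, hM, hMN⟩ := cr1x F L I t hO
  let P : (Fin t → ZMod 2) → (𝓞 L)ˣ := fun c => ∏ j, w j ^ (c j).val
  have nprod : ∀ e : Fin t → ℕ, Algebra.norm F (((∏ j, w j ^ e j : (𝓞 L)ˣ) : 𝓞 L) : L) = 1 := by
    intro e
    have h1 : (((∏ j, w j ^ e j : (𝓞 L)ˣ) : 𝓞 L) : L) = ∏ j, (((w j : (𝓞 L)ˣ) : 𝓞 L) : L) ^ e j := by
      rw [Units.coe_prod]
      simp
    rw [h1, map_prod]
    refine Finset.prod_eq_one fun j _ => ?_
    rw [map_pow, hwn j, one_pow]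
  have hPn : ∀ c, Algebra.norm F (((P c : (𝓞 L)ˣ) : 𝓞 L) : L) = 1 := fun c => nprod _
  have hone : Algebra.norm F (((1 : (𝓞 L)ˣ) : 𝓞 L) : L) = 1 := by simp
  have hP1 : ∀ c, c ≠ 0 → P c ≠ 1 ∧ P c ≠ -1 := by
    intro c hc
    have := hwsq c hc 1 hone
    rwa [one_pow] at this
  have hcls : ∀ c, c ≠ 0 → ∀ η : (𝓞 L)ˣ, Algebra.norm F ((η : 𝓞 L) : L) = 1 →
      ¬ IsSquare (ka (F := F) (((P c * η ^ 2 : (𝓞 L)ˣ) : 𝓞 L) : L)) ∧
      ¬ IsSquare (ka (F := F) (((P c * η ^ 2 : (𝓞 L)ˣ) : 𝓞 L) : L) * (-d)) ∧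
      ka (F := F) (((P c * η ^ 2 : (𝓞 L)ˣ) : 𝓞 L) : L) ≠ 0 := by
    intro c hc η hη
    have hN : Algebra.norm F (((P c * η ^ 2 : (𝓞 L)ˣ) : 𝓞 L) : L) = 1 := by
      have h1 : (((P c * η ^ 2 : (𝓞 L)ˣ) : 𝓞 L) : L) = ((P c : 𝓞 L) : L) * ((η : 𝓞 L) : L) ^ 2 := by simp
      rw [h1, map_mul, map_pow, hPn, hη]; ring
    have hns : ∀ ζ : (𝓞 L)ˣ, Algebra.norm F ((ζ : 𝓞 L) : L) = 1 →
        P c * η ^ 2 ≠ ζ ^ 2 ∧ P c * η ^ 2 ≠ -ζ ^ 2 := by
      intro ζ hζ
      have hq : Algebra.norm F (((ζ * η⁻¹ : (𝓞 L)ˣ) : 𝓞 L) : L) = 1 := by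
        have h0 : (((ζ * η⁻¹ * η : (𝓞 L)ˣ) : 𝓞 L) : L) =
            (((ζ * η⁻¹ : (𝓞 L)ˣ) : 𝓞 L) : L) * ((η : 𝓞 L) : L) := by
          rw [Units.val_mul]
          exact map_mul (algebraMap (𝓞 L) L) _ _
        have h1 : (((ζ * η⁻¹ : (𝓞 L)ˣ) : 𝓞 L) : L) * ((η : 𝓞 L) : L) = ((ζ : 𝓞 L) : L) := by
          rw [← h0, inv_mul_cancel_right]
        have h2 := congrArg (Algebra.norm F) h1
        rw [map_mul, hη, hζ, mul_one] at h2
        exact h2
      obtain ⟨h1, h2⟩ := hwsq c hc (ζ * η⁻¹) hq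
      constructor
      · intro h
        apply h1
        show P c = _
        rw [mul_pow, ← h, inv_pow, mul_inv_cancel_right]
      · intro h
        apply h2
        show P c = _
        rw [mul_pow, ← neg_mul, ← h, inv_pow, mul_inv_cancel_right]
    obtain ⟨h1, h2⟩ := ka_class hfr hρ hd _ hN hns
    refine ⟨h1, h2, ?_⟩
    intro h
    rw [h] at h1
    exact h1 ⟨0, by simp⟩
  -- the classes
  have hcond : ∀ c, c ≠ 0 → Cond (AI I) (-d) (ka (F := F) (((P c : (𝓞 L)ˣ) : 𝓞 L) : L)) := by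
    intro c hc
    refine cond_ka t_BAS hfr hρ hd I (P c) (hPn c) (hP1 c hc).1 (hP1 c hc).2 ?_
    intro v hv
    exact t_CR2L' F L d hQ hd I hI v hv (P c) M hM (hPn c) (hP1 c hc).2 (fun N => hMN c N)
  have hself : ∀ c, c ≠ 0 → ¬ IsSquare (ka (F := F) (((P c : (𝓞 L)ˣ) : 𝓞 L) : L)) ∧
      ¬ IsSquare (ka (F := F) (((P c : (𝓞 L)ˣ) : 𝓞 L) : L) * (-d)) := by
    intro c hc
    have := hcls c hc 1 hone
    rw [one_pow, mul_one] at this
    exact ⟨this.1, this.2.1⟩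
  have hpair : ∀ c c', c ≠ 0 → c' ≠ 0 → c ≠ c' →
      ¬ IsSquare (ka (F := F) (((P c : (𝓞 L)ˣ) : 𝓞 L) : L) * ka (F := F) (((P c' : (𝓞 L)ˣ) : 𝓞 L) : L)) ∧
      ¬ IsSquare (ka (F := F) (((P c : (𝓞 L)ˣ) : 𝓞 L) : L) * ka (F := F) (((P c' : (𝓞 L)ˣ) : 𝓞 L) : L) *
        (-d)) := by
    intro c c' hc hc' hcc
    have hc'' : c + c' ≠ 0 := by
      intro h
      apply hcc
      have h1 : c' + c' = 0 := funext fun j => CharTwo.add_self_eq_zero _
      calc c = c + (c' + c') := by rw [h1, add_zero]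
        _ = (c + c') + c' := by rw [add_assoc]
        _ = c' := by rw [h, zero_add]
    choose e he using fun l => val_add_mod (c l) (c' l)
    have hmul : P c * P c' = P (c + c') * (∏ j, w j ^ e j) ^ 2 := by
      show (∏ j, w j ^ (c j).val) * (∏ j, w j ^ (c' j).val) = (∏ j, w j ^ ((c + c') j).val) * _
      rw [← Finset.prod_mul_distrib, ← Finset.prod_pow, ← Finset.prod_mul_distrib]
      refine Finset.prod_congr rfl fun l _ => ?_
      rw [← pow_add, he l, pow_add, mul_comm 2 (e l), pow_mul]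
      rfl
    obtain ⟨h1, h2, h3⟩ := hcls (c + c') hc'' (∏ j, w j ^ e j) (nprod e)
    rw [← hmul] at h1 h2 h3
    have h4 := ka_mul hfr hρ hd (((P c : (𝓞 L)ˣ) : 𝓞 L) : L) (((P c' : (𝓞 L)ˣ) : 𝓞 L) : L) (hPn c) (hPn c')
    have h5 : (((P c * P c' : (𝓞 L)ˣ) : 𝓞 L) : L) = (((P c : (𝓞 L)ˣ) : 𝓞 L) : L) * (((P c' : (𝓞 L)ˣ) : 𝓞 L) : L) := by
      simp
    rw [← h5] at h4
    obtain ⟨S, hS⟩ := h4
    have hd0 : d ≠ 0 := by rintro rfl; exact hd ⟨0, by simp⟩
    have ha := (hcond c hc).ne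
    have ha' := (hcond c' hc').ne
    generalize ka (F := F) (((P c : (𝓞 L)ˣ) : 𝓞 L) : L) = a at *
    generalize ka (F := F) (((P c' : (𝓞 L)ˣ) : 𝓞 L) : L) = a' at *
    generalize ka (F := F) (((P c * P c' : (𝓞 L)ˣ) : 𝓞 L) : L) = b at *
    have haa : a * a' ≠ 0 := mul_ne_zero ha ha'
    constructor
    · rintro ⟨r, hr⟩
      have hr0 : r ≠ 0 := by rintro rfl; rw [mul_zero] at hr; exact haa hr
      apply h1
      refine ⟨S / r, ?_⟩
      rw [div_mul_div_comm, ← hS, ← hr]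
      field_simp
    · rintro ⟨r, hr⟩
      have hr0 : r ≠ 0 := by
        rintro rfl; rw [mul_zero] at hr
        exact mul_ne_zero haa (neg_ne_zero.2 hd0) hr
      apply h2
      refine ⟨S * (-d) / r, ?_⟩
      rw [div_mul_div_comm, ← hr]
      have h6 : S * (-d) * (S * (-d)) = a * a' * b * (d * d) := by rw [hS]; ring
      rw [h6]
      field_simp
  -- enumerate the nonzero vectors
  have hcard : Fintype.card {c : Fin t → ZMod 2 // c ≠ 0} = 2 ^ t - 1 := by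
    rw [Fintype.card_subtype_compl, Fintype.card_subtype_eq]
    simp [ZMod.card]
  let e : Fin (2 ^ t - 1) ≃ {c : Fin t → ZMod 2 // c ≠ 0} := (Fintype.equivFinOfCardEq hcard).symm
  refine ⟨fun i => ka (F := F) (((P (e i).1 : (𝓞 L)ˣ) : 𝓞 L) : L), fun i => ⟨hcond _ (e i).2, hself _ (e i).2⟩,
    fun i j hij => hpair _ _ (e i).2 (e j).2 ?_⟩
  intro h
  exact hij (e.injective (Subtype.ext h))

end Pool.Agent.Q7.SG
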