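import Pool.Agent.Q7.SG.Sum
import Pool.Agent.Q7.SG.StmA
import Pool.Agent.Q1.LK.AUL

/-!
# The `Σ`-Leopoldt conjecture for quadratic characters, `p = 2`: assembly (helper7)
-/

set_option autoImplicit false

namespace Pool.Agent.Q7.SG

open NumberField IsDedekindDomain Filter Topology Finset
open Pool.Agent.Q283.LQ Pool.Agent.W289.SL Pool.Agent.Q7.LM

/-- the kernel of the logarithms above `S` on the `χ`-part of the units contains `t` linearly independent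
elements -/
def Ker (K H : Type) [Field K] [Field H] [NumberField H] [Algebra K H] (S : Set (K →+* ℂ_[2]))
    (χ : (H ≃ₐ[K] H) →* ℂ_[2]ˣ) (t : ℕ) : Prop :=
  ∃ (L : ℂ_[2] → ℂ_[2]) (hL : IsIwasawaLog 2 L) (x : Fin t → UM 2 H), LinearIndependent ℂ_[2] x ∧
    (∀ (i : Fin t) (τ : H ≃ₐ[K] H), actLin 2 (τ : H →+* H) (x i) = ((χ τ : ℂ_[2]ˣ) : ℂ_[2]) • x i) ∧
    ∀ (i : Fin t) (s : H →+* ℂ_[2]), s.comp (algebraMap K H) ∈ S → logLin hL s (x i) = 0

theorem ker_one {K H : Type} [Field K] [Field H] [NumberField H] [Algebra K H] {S : Set (K →+* ℂ_[2])}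
    {χ : (H ≃ₐ[K] H) →* ℂ_[2]ˣ} (h : ¬ SigmaLeopoldt 2 K H S χ) : Ker K H S χ 1 := by
  unfold SigmaLeopoldt at h
  push Not at h
  obtain ⟨L, hL, x, hx1, hx2, hx3⟩ := h
  refine ⟨L, hL, fun _ => x, ?_, fun _ τ => hx1 τ, fun _ s hs => hx2 s hs⟩
  rw [linearIndependent_unique_iff]
  exact hx3

/-- The shares for a totally complex quadratic extension `K/F` and a 2-ordinary set `S` of embeddings -/
def S_FIN : Prop := ∀ (F K : Type) [Field F] [NumberField F] [Field K] [NumberField K] [IsTotallyComplex K]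
  [Algebra F K], Module.finrank F K = 2 → ∃ y0 : ℕ, ∀ y, y0 ≤ y →
  ∀ S : Set (K →+* ℂ_[2]), IsCMType 2 F K S → Ordinary S →
  ∀ d0 : K, d0 ≠ 0 → ∀ ε : ℝ, 0 < ε → ∃ k0 : ℕ, ∀ k, k0 ≤ k → Nest k fun X =>
    (Box y X : Set (Fin k → HeightOneSpectrum (𝓞 K))).Finite ∧
    0 < ({q ∈ (Box y X : Set (Fin k → HeightOneSpectrum (𝓞 K))) | ∃ d, Fits y d0 q d}.ncard : ℝ) ∧
    (2 / 7 - ε) * ({q ∈ (Box y X : Set (Fin k → HeightOneSpectrum (𝓞 K))) | ∃ d, Fits y d0 q d}.ncard : ℝ) ≤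
      ({q ∈ (Box y X : Set (Fin k → HeightOneSpectrum (𝓞 K))) | (∃ d, Fits y d0 q d) ∧
        ∀ d, Fits y d0 q d → ∀ (H : Type) [Field H] [NumberField H] [Algebra K H], Quad K H d →
          ∀ χ : (H ≃ₐ[K] H) →* ℂ_[2]ˣ, χ ≠ 1 → SigmaLeopoldt 2 K H S χ}.ncard : ℝ) ∧
    ∀ t : ℕ,
      ({q ∈ (Box y X : Set (Fin k → HeightOneSpectrum (𝓞 K))) | ∃ d, Fits y d0 q d ∧
        ∃ (H : Type) (_ : Field H) (_ : NumberField H) (_ : Algebra K H), Quad K H d ∧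
          ∃ χ : (H ≃ₐ[K] H) →* ℂ_[2]ˣ, χ ≠ 1 ∧ Ker K H S χ t}.ncard : ℝ) ≤
        (1 / cc t + ε) *
          ({q ∈ (Box y X : Set (Fin k → HeightOneSpectrum (𝓞 K))) | ∃ d, Fits y d0 q d}.ncard : ℝ)

theorem real_empty {K : Type} [Field K] [NumberField K] [IsTotallyComplex K] : IsEmpty (K →+* ℝ) := by
  refine ⟨fun φ => ?_⟩
  have h : ComplexEmbedding.IsReal (Complex.ofRealHom.comp φ) := by
    rw [ComplexEmbedding.isReal_iff]
    ext x
    simp [ComplexEmbedding.conjugate]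
  have h1 := IsTotallyComplex.isComplex (InfinitePlace.mk (Complex.ofRealHom.comp φ))
  have h2 : InfinitePlace.IsReal (InfinitePlace.mk (Complex.ofRealHom.comp φ)) := ⟨_, h, rfl⟩
  exact (InfinitePlace.not_isReal_iff_isComplex.2 h1) h2

theorem fin (hA : S_SgA) : S_FIN := by
  intro F K _ _ _ _ _ _ hFK
  obtain ⟨y0, hy0⟩ := t_SHARE3 K
  refine ⟨y0, fun y hy S hCM hS d0 hd0 ε hε => ?_⟩
  have hloc := Pool.Agent.Q1.LK.t_AUL K (IS S)
  obtain ⟨k0, hk0⟩ := hy0 y hy (AI (IS S)) (cI (IS S)) hloc (locG_AI (IS S)) (-d0) (neg_ne_zero.mpr hd0) ε hε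
  refine ⟨max k0 1, fun k hk => nest_mono k _ _ (fun X hX => ?_) (hk0 k (le_trans (le_max_left _ _) hk))⟩
  have hk1 : 1 ≤ k := le_trans (le_max_right _ _) hk
  obtain ⟨hfin, hpos, hN, hN1⟩ := hX
  have hμ : (2 ^ (∑ᶠ v, cI (IS S) v) * (1 / 2 : ℝ) ^ ex (-d0)) = 1 := by
    have hex : ex (-d0) = InfinitePlace.nrComplexPlaces K := by
      unfold ex
      have : IsEmpty {φ : K →+* ℝ // 0 < φ (-d0)} := ⟨fun φ => (real_empty (K := K)).false φ.1⟩
      rw [Nat.card_of_isEmpty, add_zero]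
    rw [sum_cI hFK hCM hS, hex, ← mul_pow]
    norm_num
  rw [hμ] at hN1
  simp only [hμ] at hN
  have hset : {q ∈ (Box y X : Set (Fin k → HeightOneSpectrum (𝓞 K))) | ∃ D, Fits y (-d0) q D} =
      {q ∈ (Box y X : Set (Fin k → HeightOneSpectrum (𝓞 K))) | ∃ d, Fits y d0 q d} := by
    ext q
    simp only [Set.mem_ofPred_eq, fits_neg_iff]
  rw [hset] at hpos hN1
  have hsub : ∀ t : ℕ,
      {q ∈ (Box y X : Set (Fin k → HeightOneSpectrum (𝓞 K))) | ∃ d, Fits y d0 q d ∧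
        ∃ (H : Type) (_ : Field H) (_ : NumberField H) (_ : Algebra K H), Quad K H d ∧
          ∃ χ : (H ≃ₐ[K] H) →* ℂ_[2]ˣ, χ ≠ 1 ∧ Ker K H S χ t} ⊆
      {q ∈ (Box y X : Set (Fin k → HeightOneSpectrum (𝓞 K))) | ∃ D, Fits y (-d0) q D ∧
        Many (AI (IS S)) D (2 ^ t - 1)} := by
    rintro t q ⟨hq, d, hd, H, iL1, iL2, iL3, hquad, χ, hχ, L, hL, x, hx1, hx2, hx3⟩
    have hnsq : ¬ IsSquare d :=
      not_od_sq (q ⟨0, hk1⟩) ((hd.ram _ (hq.2 ⟨0, hk1⟩).1).mpr ⟨_, rfl⟩)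
    have hmem : ∀ s : K →+* ℂ_[2], s ∈ S ↔ ∀ a ∈ IS S, ‖s (a : K)‖ < 1 := by
      intro s
      rw [← IS_le_iff hS s]
      exact Iff.rfl
    have hO := hA K H hquad.deg (IS S) (two_mem_IS S) S hmem L hL χ hχ t x hx1 hx2 hx3
    exact ⟨hq, -d, fits_neg hd, cr2x K H d hquad hnsq (IS S) (two_mem_IS S) t hO⟩
  refine ⟨hfin, hpos, ?_, fun t => ?_⟩
  · have h1 := hN1 le_rfl
    set T : Set (Fin k → HeightOneSpectrum (𝓞 K)) := {q ∈ (Box y X : Set (Fin k → HeightOneSpectrum (𝓞 K))) | ∃ d, Fits y d0 q d} with hT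
    set G : Set (Fin k → HeightOneSpectrum (𝓞 K)) := {q ∈ (Box y X : Set (Fin k → HeightOneSpectrum (𝓞 K))) | (∃ d, Fits y d0 q d) ∧
        ∀ d, Fits y d0 q d → ∀ (H : Type) [Field H] [NumberField H] [Algebra K H], Quad K H d →
          ∀ χ : (H ≃ₐ[K] H) →* ℂ_[2]ˣ, χ ≠ 1 → SigmaLeopoldt 2 K H S χ} with hG
    set B : Set (Fin k → HeightOneSpectrum (𝓞 K)) := {q ∈ (Box y X : Set (Fin k → HeightOneSpectrum (𝓞 K))) | ∃ D, Fits y (-d0) q D ∧
        Many (AI (IS S)) D 1} with hB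
    have hcov : T ⊆ G ∪ B := by
      intro q hq
      by_cases hg : q ∈ G
      · exact Or.inl hg
      · right
        rw [hG] at hg
        simp only [Set.mem_ofPred_eq, not_and, not_forall] at hg
        obtain ⟨d, hd, H, i1, i2, i3, hquad, χ, hχ, hns⟩ := hg hq.1 hq.2
        exact hsub 1 ⟨hq.1, d, hd, H, i1, i2, i3, hquad, χ, hχ, ker_one hns⟩
    have hGf : G.Finite := hfin.subset fun q hq => hq.1
    have hBf : B.Finite := hfin.subset fun q hq => hq.1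
    have h2 : (T.ncard : ℝ) ≤ G.ncard + B.ncard := by
      exact_mod_cast le_trans (Set.ncard_le_ncard hcov (hGf.union hBf)) (Set.ncard_union_le G B)
    have h3 : (B.ncard : ℝ) ≤ (5 / 7 + ε) * T.ncard := by
      refine le_trans h1 (le_of_eq ?_)
      ring
    linarith
  · have h2 := hN t
    rw [hset, one_pow] at h2
    refine le_trans ?_ h2
    exact_mod_cast Set.ncard_le_ncard (hsub t) (hfin.subset (fun q hq => hq.1))

end Pool.Agent.Q7.SG
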